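import Pool.Agent.H32.SAB.TargetsT

/-! Row PEXC of `qcf_modules`: a totally isotropic subspace of the same dimension through a given
vector. -/

set_option autoImplicit false

open Polynomial Matrix Pool.Agent.H32.SAB

namespace Pool.Agent.H79.SAB

section ext

variable {F V : Type*} [Field F] [AddCommGroup V] [Module F V] [FiniteDimensional F V]

/-- independent vectors in a subspace, starting with a given vector -/
theorem ext_indep (U : Submodule F V) (x : V) (hx : x ∈ U) (hx0 : x ≠ 0) : ∀ r : ℕ,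
    r + 1 ≤ Module.finrank F U →
    ∃ b : Fin (r + 1) → V, b 0 = x ∧ LinearIndependent F b ∧ ∀ i, b i ∈ U
  | 0, _ => by
    refine ⟨fun _ => x, rfl, ?_, fun _ => hx⟩
    exact LinearIndependent.of_subsingleton (ι := Fin 1) (v := fun _ => x) 0 hx0
  | r + 1, h => by
    obtain ⟨b, hb0, hb1, hb2⟩ := ext_indep U x hx hx0 r (by omega)
    have hy : ∃ y ∈ U, y ∉ Submodule.span F (Set.range b) := by
      by_contra hcon
      push Not at hcon
      have h1 : U ≤ Submodule.span F (Set.range b) := hcon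
      have h2 := Submodule.finrank_mono h1
      rw [finrank_span_eq_card hb1, Fintype.card_fin] at h2
      omega
    obtain ⟨y, hyU, hy⟩ := hy
    refine ⟨Fin.snoc b y, ?_, linearIndependent_finSnoc.2 ⟨hb1, hy⟩, fun i => ?_⟩
    · have h0 : (0 : Fin (r + 1 + 1)) = Fin.castSucc 0 := rfl
      rw [h0, Fin.snoc_castSucc, hb0]
    · refine Fin.lastCases ?_ (fun j => ?_) i
      · rw [Fin.snoc_last]
        exact hyU
      · rw [Fin.snoc_castSucc]
        exact hb2 j

end ext

theorem pf_EXC : T_EXC := by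
  intro F _ n r A hA hTI x hx0 hxx
  obtain ⟨b, hb, hbb⟩ := hTI
  have hsymm : ∀ u v : Fin n → F, u ⬝ᵥ A *ᵥ v = v ⬝ᵥ A *ᵥ u := by
    intro u v
    rw [Matrix.dotProduct_mulVec, dotProduct_comm, ← Matrix.mulVec_transpose, hA.eq]
  obtain ⟨W, hW⟩ : ∃ W : Submodule F (Fin n → F), W = Submodule.span F (Set.range b) := ⟨_, rfl⟩
  have hfW : Module.finrank F W = r + 1 := by
    rw [hW, finrank_span_eq_card hb, Fintype.card_fin]
  have hW1 : ∀ i, ∀ v ∈ W, b i ⬝ᵥ A *ᵥ v = 0 := by
    intro i v hv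
    rw [hW] at hv
    refine Submodule.span_induction (p := fun v _ => b i ⬝ᵥ A *ᵥ v = 0) ?_ ?_ ?_ ?_ hv
    · rintro _ ⟨j, rfl⟩
      exact hbb i j
    · rw [Matrix.mulVec_zero, dotProduct_zero]
    · intro u v _ _ hu hv
      rw [Matrix.mulVec_add, dotProduct_add, hu, hv, add_zero]
    · intro a v _ hv
      rw [Matrix.mulVec_smul, dotProduct_smul, hv, smul_zero]
  have hW2 : ∀ u ∈ W, ∀ v ∈ W, u ⬝ᵥ A *ᵥ v = 0 := by
    intro u hu v hv
    rw [hW] at hu
    refine Submodule.span_induction (p := fun u _ => u ⬝ᵥ A *ᵥ v = 0) ?_ ?_ ?_ ?_ hu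
    · rintro _ ⟨j, rfl⟩
      exact hW1 j v hv
    · rw [zero_dotProduct]
    · intro u v _ _ hu hv
      rw [add_dotProduct, hu, hv, add_zero]
    · intro a v _ hv
      rw [smul_dotProduct, hv, smul_zero]
  -- it is enough to find a totally isotropic subspace through `x`
  have key : ∀ U : Submodule F (Fin n → F), x ∈ U → r + 1 ≤ Module.finrank F U →
      (∀ u ∈ U, ∀ v ∈ U, u ⬝ᵥ A *ᵥ v = 0) →
      ∃ b : Fin (r + 1) → Fin n → F, b 0 = x ∧ LinearIndependent F b ∧
        ∀ i j, b i ⬝ᵥ A *ᵥ b j = 0 := by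
    intro U hxU hU hU2
    obtain ⟨c, h1, h2, h3⟩ := ext_indep U x hxU hx0 r hU
    exact ⟨c, h1, h2, fun i j => hU2 _ (h3 i) _ (h3 j)⟩
  by_cases hxW : x ∈ W
  · exact key W hxW hfW.ge hW2
  · obtain ⟨φ, hφ⟩ : ∃ φ : (Fin n → F) →ₗ[F] F, ∀ v, φ v = x ⬝ᵥ A *ᵥ v :=
      ⟨{ toFun := fun v => x ⬝ᵥ A *ᵥ v
         map_add' := fun u v => by rw [Matrix.mulVec_add, dotProduct_add]
         map_smul' := fun a v => by rw [Matrix.mulVec_smul, dotProduct_smul]; rfl },
        fun v => rfl⟩
    have hk : n ≤ Module.finrank F (LinearMap.ker φ) + 1 := by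
      have h1 := φ.finrank_range_add_finrank_ker
      have h2 : Module.finrank F (LinearMap.range φ) ≤ Module.finrank F F :=
        Submodule.finrank_le _
      rw [Module.finrank_self] at h2
      rw [Module.finrank_fin_fun] at h1
      omega
    have hW3 : r ≤ Module.finrank F (W ⊓ LinearMap.ker φ : Submodule F (Fin n → F)) := by
      have h1 := Submodule.finrank_sup_add_finrank_inf_eq W (LinearMap.ker φ)
      have h2 : Module.finrank F (W ⊔ LinearMap.ker φ : Submodule F (Fin n → F)) ≤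
          Module.finrank F (Fin n → F) := Submodule.finrank_le _
      rw [Module.finrank_fin_fun] at h2
      omega
    refine key ((W ⊓ LinearMap.ker φ) ⊔ Submodule.span F {x})
      (Submodule.mem_sup_right (Submodule.mem_span_singleton_self x)) ?_ ?_
    · have h1 := Submodule.finrank_sup_add_finrank_inf_eq (W ⊓ LinearMap.ker φ)
        (Submodule.span F {x})
      have h2 : (W ⊓ LinearMap.ker φ) ⊓ Submodule.span F {x} = ⊥ := by
        rw [eq_bot_iff]
        rintro y ⟨⟨hy1, -⟩, hy2⟩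
        obtain ⟨a, rfl⟩ := Submodule.mem_span_singleton.1 hy2
        by_cases ha : a = 0
        · rw [ha, zero_smul]
          exact Submodule.zero_mem _
        · exact absurd ((W.smul_mem_iff ha).1 hy1) hxW
      rw [h2, finrank_bot, finrank_span_singleton hx0] at h1
      omega
    · intro u hu v hv
      obtain ⟨w, ⟨hw1, hw2⟩, y, hy, rfl⟩ := Submodule.mem_sup.1 hu
      obtain ⟨w', ⟨hw1', hw2'⟩, y', hy', rfl⟩ := Submodule.mem_sup.1 hv
      obtain ⟨a, rfl⟩ := Submodule.mem_span_singleton.1 hy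
      obtain ⟨a', rfl⟩ := Submodule.mem_span_singleton.1 hy'
      have h1 : x ⬝ᵥ A *ᵥ w = 0 := by
        rw [← hφ]
        exact hw2
      have h2 : x ⬝ᵥ A *ᵥ w' = 0 := by
        rw [← hφ]
        exact hw2'
      rw [Matrix.mulVec_add, Matrix.mulVec_smul, add_dotProduct, dotProduct_add, dotProduct_add,
        dotProduct_smul, dotProduct_smul, smul_dotProduct, smul_dotProduct, hW2 w hw1 w' hw1',
        hsymm w x, h1, h2, hxx]
      simp

end Pool.Agent.H79.SAB
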